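import Pool.Agent.K3h5.FF.Stm

/-!
# The limit of the box counts of Mallows permutations (brick BOXL)
-/

set_option autoImplicit false

open MeasureTheory Filter Topology ProbabilityTheory Set

namespace Pool.Agent.K3h67.FF.BX

open Pool.Agent.K3h5.FF

theorem mallows_nonneg {q : ℝ} (hq : 0 < q) (n : ℕ) (π : Equiv.Perm (Fin n)) :
    0 ≤ mallows q n π :=
  div_nonneg (pow_nonneg hq.le _) (Finset.sum_nonneg fun _ _ => pow_nonneg hq.le _)

theorem mallows_sum {q : ℝ} (hq : 0 < q) (n : ℕ) :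
    ∑ π : Equiv.Perm (Fin n), mallows q n π = 1 := by
  unfold mallows
  rw [← Finset.sum_div]
  exact div_self (Finset.sum_pos (fun _ _ => pow_pos hq _) Finset.univ_nonempty).ne'

theorem NN_eq {n : ℕ} (t t' m m' : ℕ) (ht : t ≤ t') (hm : m ≤ m') (π : Equiv.Perm (Fin n)) :
    (NN (seg n t t') (seg n m m') π : ℝ) =
      (Fc t' m' π : ℝ) - Fc t m' π - Fc t' m π + Fc t m π := by
  classical
  unfold NN Fc seg
  rw [Finset.filter_filter, Finset.card_filter, Finset.card_filter, Finset.card_filter,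
    Finset.card_filter, Finset.card_filter]
  push_cast
  rw [← Finset.sum_sub_distrib, ← Finset.sum_sub_distrib, ← Finset.sum_add_distrib]
  refine Finset.sum_congr rfl fun i _ => ?_
  simp only [Finset.mem_filter, Finset.mem_univ, true_and, ← not_lt]
  by_cases h1 : i.val < t <;> by_cases h2 : i.val < t' <;> by_cases h3 : (π i).val < m <;>
    by_cases h4 : (π i).val < m' <;> first | (exfalso; omega) | (simp [h1, h2, h3, h4])

theorem abs_prod_sub {ι : Type} [DecidableEq ι] (s : Finset ι) (a b : ι → ℝ) (B : ℝ) (hB : 1 ≤ B)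
    (ha : ∀ i, |a i| ≤ B) (hb : ∀ i, |b i| ≤ B) :
    |∏ i ∈ s, a i - ∏ i ∈ s, b i| ≤ B ^ s.card * ∑ i ∈ s, |a i - b i| := by
  have hB0 : 0 ≤ B := zero_le_one.trans hB
  induction s using Finset.induction_on with
  | empty => simp
  | insert i s hi ih =>
    rw [Finset.prod_insert hi, Finset.prod_insert hi, Finset.sum_insert hi,
      Finset.card_insert_of_notMem hi]
    have h1 : |∏ i ∈ s, a i| ≤ B ^ s.card := by
      rw [Finset.abs_prod, ← Finset.prod_const]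
      exact Finset.prod_le_prod (fun j _ => abs_nonneg _) fun j _ => ha j
    have h2 : a i * ∏ i ∈ s, a i - b i * ∏ i ∈ s, b i =
        (a i - b i) * ∏ i ∈ s, a i + b i * (∏ i ∈ s, a i - ∏ i ∈ s, b i) := by ring
    have hS : 0 ≤ ∑ i ∈ s, |a i - b i| := Finset.sum_nonneg fun _ _ => abs_nonneg _
    have hP : 0 ≤ B ^ s.card := pow_nonneg hB0 _
    calc |a i * ∏ i ∈ s, a i - b i * ∏ i ∈ s, b i|
        ≤ |a i - b i| * |∏ i ∈ s, a i| + |b i| * |∏ i ∈ s, a i - ∏ i ∈ s, b i| := by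
          rw [h2, ← abs_mul, ← abs_mul]
          exact abs_add_le _ _
      _ ≤ |a i - b i| * B ^ s.card + B * (B ^ s.card * ∑ i ∈ s, |a i - b i|) :=
          add_le_add (mul_le_mul_of_nonneg_left h1 (abs_nonneg _))
            (mul_le_mul (hb i) ih (abs_nonneg _) hB0)
      _ ≤ |a i - b i| * (B ^ s.card * B) + B * (B ^ s.card * ∑ i ∈ s, |a i - b i|) := by
          gcongr
          exact le_mul_of_one_le_right hP hB
      _ = B ^ (s.card + 1) * (|a i - b i| + ∑ i ∈ s, |a i - b i|) := by ring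

theorem NN_le {n : ℕ} (I J : Finset (Fin n)) (π : Equiv.Perm (Fin n)) :
    |(NN I J π : ℝ) / n| ≤ 1 := by
  rw [abs_of_nonneg (div_nonneg (Nat.cast_nonneg _) (Nat.cast_nonneg _))]
  apply div_le_one_of_le₀ _ (Nat.cast_nonneg _)
  have h : NN I J π ≤ n := by
    unfold NN
    exact (Finset.card_le_univ _).trans (by rw [Fintype.card_fin])
  exact_mod_cast h

/-- one box -/
theorem oneBox (hL : S_LLN) {q : ℕ → ℝ} {β : ℝ} (hq : ∀ n, 0 < q n)
    (hβ : Tendsto (fun n : ℕ => (n : ℝ) * (1 - q n)) atTop (𝓝 β)) (t t' m m' : ℕ → ℕ)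
    (x x' y y' : ℝ) (h : ∀ᶠ n in atTop, t n ≤ t' n ∧ t' n ≤ n ∧ m n ≤ m' n ∧ m' n ≤ n)
    (hx : Tendsto (fun n : ℕ => (t n : ℝ) / n) atTop (𝓝 x))
    (hx' : Tendsto (fun n : ℕ => (t' n : ℝ) / n) atTop (𝓝 x'))
    (hy : Tendsto (fun n : ℕ => (m n : ℝ) / n) atTop (𝓝 y))
    (hy' : Tendsto (fun n : ℕ => (m' n : ℝ) / n) atTop (𝓝 y')) :
    Tendsto (fun n : ℕ => ∑ π : Equiv.Perm (Fin n), mallows (q n) n π *
      |(NN (seg n (t n) (t' n)) (seg n (m n) (m' n)) π : ℝ) / n -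
        (UU β x' y' - UU β x y' - UU β x' y + UU β x y)|) atTop (𝓝 0) := by
  have ht : ∀ᶠ n in atTop, t n ≤ n := h.mono fun n hn => hn.1.trans hn.2.1
  have ht' : ∀ᶠ n in atTop, t' n ≤ n := h.mono fun n hn => hn.2.1
  have hm : ∀ᶠ n in atTop, m n ≤ n := h.mono fun n hn => hn.2.2.1.trans hn.2.2.2
  have hm' : ∀ᶠ n in atTop, m' n ≤ n := h.mono fun n hn => hn.2.2.2
  have l1 := hL q β hq hβ t' m' x' y' ht' hm' hx' hy'
  have l2 := hL q β hq hβ t m' x y' ht hm' hx hy'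
  have l3 := hL q β hq hβ t' m x' y ht' hm hx' hy
  have l4 := hL q β hq hβ t m x y ht hm hx hy
  have l := ((l1.add l2).add l3).add l4
  simp only [add_zero] at l
  refine squeeze_zero' (Eventually.of_forall fun n => Finset.sum_nonneg fun π _ =>
    mul_nonneg (mallows_nonneg (hq n) n π) (abs_nonneg _)) ?_ l
  filter_upwards [h] with n hn
  rw [← Finset.sum_add_distrib, ← Finset.sum_add_distrib, ← Finset.sum_add_distrib]
  refine Finset.sum_le_sum fun π _ => ?_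
  rw [← mul_add, ← mul_add, ← mul_add]
  refine mul_le_mul_of_nonneg_left ?_ (mallows_nonneg (hq n) n π)
  rw [NN_eq _ _ _ _ hn.1 hn.2.2.1]
  obtain ⟨A, hA⟩ : ∃ A, A = (Fc (t' n) (m' n) π : ℝ) / n - UU β x' y' := ⟨_, rfl⟩
  obtain ⟨B, hB⟩ : ∃ B, B = (Fc (t n) (m' n) π : ℝ) / n - UU β x y' := ⟨_, rfl⟩
  obtain ⟨C, hC⟩ : ∃ C, C = (Fc (t' n) (m n) π : ℝ) / n - UU β x' y := ⟨_, rfl⟩
  obtain ⟨D, hD⟩ : ∃ D, D = (Fc (t n) (m n) π : ℝ) / n - UU β x y := ⟨_, rfl⟩
  have e : ((Fc (t' n) (m' n) π : ℝ) - Fc (t n) (m' n) π - Fc (t' n) (m n) π +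
      Fc (t n) (m n) π) / n - (UU β x' y' - UU β x y' - UU β x' y + UU β x y) =
      A - B - C + D := by
    rw [hA, hB, hC, hD]
    ring
  rw [e, ← hA, ← hB, ← hC, ← hD]
  calc |A - B - C + D| ≤ |A - B - C| + |D| := abs_add_le _ _
    _ ≤ |A - B| + |C| + |D| := by gcongr; exact abs_sub _ _
    _ ≤ |A| + |B| + |C| + |D| := by gcongr; exact abs_sub _ _

/-- **BOXL** -/
theorem t_BOXL : S_LLN → S_GU → S_BOXL := by
  intro hL hG q β hq hβ l t t' m m' x x' y y' h hx hx' hy hy'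
  classical
  obtain ⟨-, -, -, -, -, -, -, -, hUU⟩ := hG β
  -- the limits are ordered
  have hdiv : ∀ (a b : ℕ → ℕ) (u v : ℝ), (∀ᶠ n in atTop, a n ≤ b n) →
      Tendsto (fun n : ℕ => (a n : ℝ) / n) atTop (𝓝 u) →
      Tendsto (fun n : ℕ => (b n : ℝ) / n) atTop (𝓝 v) → u ≤ v := by
    intro a b u v hab ha hb
    refine le_of_tendsto_of_tendsto ha hb ?_
    filter_upwards [hab] with n hn
    exact div_le_div_of_nonneg_right (by exact_mod_cast hn) (Nat.cast_nonneg _)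
  have h0 : ∀ (a : ℕ → ℕ) (u : ℝ), Tendsto (fun n : ℕ => (a n : ℝ) / n) atTop (𝓝 u) → 0 ≤ u := by
    intro a u ha
    exact ge_of_tendsto' ha fun n => div_nonneg (Nat.cast_nonneg _) (Nat.cast_nonneg _)
  have h1 : ∀ (a : ℕ → ℕ) (u : ℝ), (∀ᶠ n in atTop, a n ≤ n) →
      Tendsto (fun n : ℕ => (a n : ℝ) / n) atTop (𝓝 u) → u ≤ 1 := by
    intro a u hab ha
    refine le_of_tendsto ha ?_
    filter_upwards [hab] with n hn
    exact div_le_one_of_le₀ (by exact_mod_cast hn) (Nat.cast_nonneg _)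
  obtain ⟨Δ, hΔ⟩ : ∃ Δ : Fin l → ℝ, Δ = fun i => UU β (x' i) (y' i) - UU β (x i) (y' i) -
    UU β (x' i) (y i) + UU β (x i) (y i) := ⟨_, rfl⟩
  have hint : ∀ i, ∫ s in (x i)..(x' i), ∫ r in (y i)..(y' i), dens β s r = Δ i := by
    intro i
    rw [hΔ]
    refine (hUU (x i) (x' i) (y i) (y' i) (h0 _ _ (hx i))
      (hdiv _ _ _ _ (h.mono fun n hn => (hn i).1) (hx i) (hx' i))
      (h1 _ _ (h.mono fun n hn => (hn i).2.1) (hx' i)) (h0 _ _ (hy i))
      (hdiv _ _ _ _ (h.mono fun n hn => (hn i).2.2.1) (hy i) (hy' i))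
      (h1 _ _ (h.mono fun n hn => (hn i).2.2.2) (hy' i))).symm
  rw [Finset.prod_congr rfl fun i _ => hint i]
  have hone : ∀ i, Tendsto (fun n : ℕ => ∑ π : Equiv.Perm (Fin n), mallows (q n) n π *
      |(NN (seg n (t n i) (t' n i)) (seg n (m n i) (m' n i)) π : ℝ) / n - Δ i|) atTop (𝓝 0) := by
    intro i
    rw [hΔ]
    exact oneBox hL hq hβ (fun n => t n i) (fun n => t' n i) (fun n => m n i) (fun n => m' n i)
      _ _ _ _ (h.mono fun n hn => hn i) (hx i) (hx' i) (hy i) (hy' i)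
  obtain ⟨B, hB⟩ : ∃ B : ℝ, B = 1 + ∑ i, |Δ i| := ⟨_, rfl⟩
  have hS : 0 ≤ ∑ i, |Δ i| := Finset.sum_nonneg fun _ _ => abs_nonneg _
  have hB1 : 1 ≤ B := by rw [hB]; linarith
  have hBΔ : ∀ i, |Δ i| ≤ B := by
    intro i
    have := Finset.single_le_sum (f := fun i => |Δ i|) (fun j _ => abs_nonneg _)
      (Finset.mem_univ i)
    rw [hB]
    linarith
  have hlim : Tendsto (fun n : ℕ => B ^ l * ∑ i, ∑ π : Equiv.Perm (Fin n), mallows (q n) n π *
      |(NN (seg n (t n i) (t' n i)) (seg n (m n i) (m' n i)) π : ℝ) / n - Δ i|) atTop (𝓝 0) := by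
    have h2 := (tendsto_finsetSum Finset.univ fun i _ => hone i).const_mul (B ^ l)
    simpa using h2
  rw [tendsto_iff_norm_sub_tendsto_zero]
  refine squeeze_zero (fun n => norm_nonneg _) (fun n => ?_) hlim
  have e1 : (∑ π : Equiv.Perm (Fin n), mallows (q n) n π *
      ∏ i, ((NN (seg n (t n i) (t' n i)) (seg n (m n i) (m' n i)) π : ℝ) / n)) - ∏ i, Δ i =
      ∑ π : Equiv.Perm (Fin n), mallows (q n) n π *
        (∏ i, ((NN (seg n (t n i) (t' n i)) (seg n (m n i) (m' n i)) π : ℝ) / n) -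
          ∏ i, Δ i) := by
    simp only [mul_sub]
    rw [Finset.sum_sub_distrib, ← Finset.sum_mul, mallows_sum (hq n) n, one_mul]
  rw [e1, Real.norm_eq_abs]
  calc |∑ π : Equiv.Perm (Fin n), mallows (q n) n π *
        (∏ i, ((NN (seg n (t n i) (t' n i)) (seg n (m n i) (m' n i)) π : ℝ) / n) - ∏ i, Δ i)|
      ≤ ∑ π : Equiv.Perm (Fin n), |mallows (q n) n π *
        (∏ i, ((NN (seg n (t n i) (t' n i)) (seg n (m n i) (m' n i)) π : ℝ) / n) -
          ∏ i, Δ i)| := Finset.abs_sum_le_sum_abs _ _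
    _ ≤ ∑ π : Equiv.Perm (Fin n), mallows (q n) n π * (B ^ l * ∑ i,
        |(NN (seg n (t n i) (t' n i)) (seg n (m n i) (m' n i)) π : ℝ) / n - Δ i|) := by
        refine Finset.sum_le_sum fun π _ => ?_
        rw [abs_mul, abs_of_nonneg (mallows_nonneg (hq n) n π)]
        refine mul_le_mul_of_nonneg_left ?_ (mallows_nonneg (hq n) n π)
        have h3 := abs_prod_sub (Finset.univ : Finset (Fin l))
          (fun i => (NN (seg n (t n i) (t' n i)) (seg n (m n i) (m' n i)) π : ℝ) / n) Δ B hB1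
          (fun i => (NN_le _ _ π).trans hB1) hBΔ
        rw [Finset.card_univ, Fintype.card_fin] at h3
        exact h3
    _ = B ^ l * ∑ i, ∑ π : Equiv.Perm (Fin n), mallows (q n) n π *
        |(NN (seg n (t n i) (t' n i)) (seg n (m n i) (m' n i)) π : ℝ) / n - Δ i| := by
        rw [Finset.sum_comm, Finset.mul_sum]
        refine Finset.sum_congr rfl fun π _ => ?_
        rw [Finset.mul_sum, Finset.mul_sum, Finset.mul_sum]
        refine Finset.sum_congr rfl fun i _ => ?_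
        ring

end Pool.Agent.K3h67.FF.BX
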