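import Pool.Agent.K3h5.FF.Stm

/-!
# The Mallows weights form a model (brick MALM)
-/

set_option autoImplicit false

open MeasureTheory Filter Topology ProbabilityTheory Set

namespace Pool.Agent.K3h67.FF

open Pool.Agent.K3h5.FF

theorem mallows_nonneg {q : ℝ} (hq : 0 < q) (n : ℕ) (π : Equiv.Perm (Fin n)) :
    0 ≤ mallows q n π :=
  div_nonneg (pow_nonneg hq.le _) (Finset.sum_nonneg fun _ _ => pow_nonneg hq.le _)

theorem mallows_sum {q : ℝ} (hq : 0 < q) (n : ℕ) :
    ∑ π : Equiv.Perm (Fin n), mallows q n π = 1 := by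
  unfold mallows
  rw [← Finset.sum_div]
  exact div_self (Finset.sum_pos (fun _ _ => pow_pos hq _) Finset.univ_nonempty).ne'

theorem pow_bound {q K : ℝ} (hq : 0 < q) {n a b : ℕ} (hK : (max q q⁻¹) ^ n ≤ K)
    (h1 : a ≤ b + 2 * n) (h2 : b ≤ a + 2 * n) : q ^ a ≤ K ^ 2 * q ^ b := by
  have hM : (max q q⁻¹) ^ (2 * n) ≤ K ^ 2 := by
    rw [mul_comm, pow_mul]
    exact pow_le_pow_left₀ (pow_nonneg (hq.le.trans (le_max_left _ _)) _) hK 2
  rcases le_total 1 q with h | h
  · calc q ^ a ≤ q ^ (b + 2 * n) := pow_le_pow_right₀ h h1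
      _ = q ^ (2 * n) * q ^ b := by rw [pow_add, mul_comm]
      _ ≤ K ^ 2 * q ^ b := mul_le_mul_of_nonneg_right
        ((pow_le_pow_left₀ hq.le (le_max_left _ _) _).trans hM) (pow_nonneg hq.le _)
  · calc q ^ a = (q⁻¹) ^ (2 * n) * q ^ (a + 2 * n) := by
          rw [pow_add, inv_pow, mul_comm (q ^ a), ← mul_assoc,
            inv_mul_cancel₀ (pow_pos hq _).ne', one_mul]
      _ ≤ (q⁻¹) ^ (2 * n) * q ^ b := mul_le_mul_of_nonneg_left
        (pow_le_pow_of_le_one hq.le h h2) (pow_nonneg (inv_nonneg.2 hq.le) _)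
      _ ≤ K ^ 2 * q ^ b := mul_le_mul_of_nonneg_right
        ((pow_le_pow_left₀ (inv_nonneg.2 hq.le) (le_max_right _ _) _).trans hM)
        (pow_nonneg hq.le _)

theorem abs_fin_le {n : ℕ} (x y : Fin n) : |(x.val : ℤ) - y.val| ≤ n := by
  rw [abs_le]
  constructor <;> omega

/-- **MALM** -/
theorem t_MALM : S_RATIO → S_INVS → S_QN → S_GU → S_MLIM → S_MALM := by
  intro hR hI hQ hG hM q β hq hβ
  obtain ⟨-, ⟨K, hK1, hK⟩, -⟩ := hQ q β hq hβ
  obtain ⟨-, -, -, -, -, hcont, hpos, hint, -⟩ := hG β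
  have hswap : ∀ (n : ℕ) (π : Equiv.Perm (Fin n)) (x y : Fin n),
      mallows (q n) n (Equiv.swap x y * π) ≤ K ^ 2 * mallows (q n) n π := by
    intro n π x y
    have h1 := (hI n π x y).1
    have h2 := (hI n (Equiv.swap x y * π) x y).1
    rw [← mul_assoc, Equiv.swap_mul_self, one_mul] at h2
    have h3 := abs_fin_le x y
    have h4 := pow_bound (hq n) (hK n) (a := inv (Equiv.swap x y * π)) (b := inv π) (by omega)
      (by omega)
    unfold mallows
    rw [← mul_div_assoc]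
    exact div_le_div_of_nonneg_right h4 (Finset.sum_nonneg fun _ _ => pow_nonneg (hq n).le _)
  refine ⟨fun n π => mallows_nonneg (hq n) n π, fun n => mallows_sum (hq n) n,
    ⟨K ^ 2, one_le_pow₀ hK1, ?_⟩, hM q β hq hβ, ?_, ?_, ?_, ?_, hint⟩
  · intro n l p a hp ha
    have h1 := hR n (mallows (q n) n) (K ^ 2) (one_le_pow₀ hK1) (mallows_nonneg (hq n) n)
      (hswap n) l p a hp ha
    rw [mallows_sum (hq n) n, mul_one] at h1
    have hl : l ≤ n := by simpa using Fintype.card_le_of_injective p hp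
    have hd : (0 : ℝ) < (n.descFactorial l : ℝ) := by
      have := Nat.descFactorial_pos.2 hl
      exact_mod_cast this
    rw [le_div_iff₀ hd]
    exact h1
  · intro k
    exact hcont.comp (continuous_id.prodMk continuous_id).continuousOn fun x hx => ⟨hx, hx⟩
  · intro k x hx
    exact hpos x hx x hx
  · exact hcont.comp (continuous_const.prodMk continuous_id).continuousOn
      fun x hx => ⟨⟨le_rfl, zero_le_one⟩, hx⟩
  · intro x hx
    exact hpos 0 ⟨le_rfl, zero_le_one⟩ x hx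

end Pool.Agent.K3h67.FF
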